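import Pool.Agent.H5.CycCrit3

set_option autoImplicit false
open Polynomial

namespace Pool.Agent.Results.MP_99db3a_nt.Cex

/-- number of real roots of the derivative of the `m`-th cyclotomic polynomial, with multiplicity -/
noncomputable def N (m : ℕ) : ℕ := (derivative (cyclotomic m ℝ)).roots.card

theorem result : ∃ n p p' : ℕ, n = 3 * 5 * 41 ∧ p.Prime ∧ p'.Prime ∧ 41 < p ∧ p < p' ∧
    ¬ p ∣ n ∧ ¬ p' ∣ n ∧ N (n * p') < N (n * p) := by
  refine ⟨615, 181, 263, by norm_num, by norm_num, by norm_num, by norm_num, by norm_num,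
    by norm_num, by norm_num, ?_⟩
  have h1 := Pool.Agent.H5.CycCrit.up
  have h2 := Pool.Agent.H5.CycCrit.low
  unfold N
  omega

end Pool.Agent.Results.MP_99db3a_nt.Cex
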